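import Mathlib
import Pool.Agent.H868R3.GPI.Fin

/-!
# Algebraicity of de Rham-Betti classes for families of CM abelian varieties
-/

set_option linter.unusedSectionVars false
set_option linter.unusedVariables false

namespace Pool.Agent.Results.MP_77d3f5_ag.MultiplicityFree

open NumberField Pool.Agent.H204R3.CM Pool.Agent.H868R3.GPC Pool.Agent.H868R3.GPI

/-- The periods of the abelian varieties `A i` over `ℚbar` with complex multiplication by the CM
fields `E i`: the number `per (i, φ)` is the integral, over a fixed generator of the `E i`-vector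
space `H_1(A i, ℚ)`, of a `φ`-eigenclass in the algebraic de Rham cohomology `H¹(A i / ℚbar)`. The
product of the periods belonging to conjugate embeddings is an algebraic multiple of `2πi`
(Legendre's relation, given by the class of a polarization). -/
structure CMPeriods {ι : Type} (E : ι → Type) [∀ i, Field (E i)] where
  per : Emb E → ℂ
  ne_zero : ∀ x, per x ≠ 0
  legendre : ∀ x, IsAlgebraic ℚ ((per x * per (bar x)) / (2 * Real.pi * Complex.I))

/-- Let `A` be the product of the `A (t j)`, over `j : J`. Its rational homology is the product of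
the fields `E (t j)`, and an element of `H^{2k}(A, ℚ)` is a rational alternating `2k`-form `f` on
it. The form `(2πi)^k f` is in the algebraic de Rham cohomology `H^{2k}_dR(A / ℚbar)`, if it is a
linear combination with algebraic coefficients of the products of the eigenclasses
`per (t j, φ) · φ` in `H^1_dR(A / ℚbar)`. -/
def IsDeRhamBetti {ι : Type} {E : ι → Type} [∀ i, Field (E i)] [∀ i, NumberField (E i)]
    (P : CMPeriods E) {J : Type} [Fintype J] (t : J → ι) (k : ℕ)
    (f : (∀ a, E (t a)) [⋀^Fin k × Fin 2]→ₗ[ℚ] ℚ) : Prop :=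
  ∃ b : (Fin k × Fin 2 → (Σ j : J, (E (t j) →+* ℂ))) → ℂ, (∀ I, IsAlgebraic ℚ (b I)) ∧
    ∀ v : Fin k × Fin 2 → (∀ a, E (t a)), (2 * Real.pi * Complex.I) ^ k * ((f v : ℚ) : ℂ) =
      ∑ I, b I * ∏ l, (P.per ⟨t (I l).1, (I l).2⟩ * (I l).2 (v l (I l).1))

/-- The linear combinations of the wedge products of `k` rational classes of type `(1, 1)`, that
is, of `k` divisor classes. -/
def divisorProducts {ι : Type} {E : ι → Type} [∀ i, Field (E i)] [∀ i, NumberField (E i)]
    (Φ : ∀ i, Set (E i →+* ℂ)) {J : Type} (t : J → ι) (k : ℕ) :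
    Submodule ℚ ((∀ a, E (t a)) [⋀^Fin k × Fin 2]→ₗ[ℚ] ℚ) :=
  Submodule.span ℚ {g | ∃ B : Fin k → (∀ a, E (t a)) [⋀^Fin 2]→ₗ[ℚ] ℚ,
    (∀ s, IsHodge (per Φ t) (B s)) ∧
      ∀ v, g v = ∑ σ : Equiv.Perm (Fin k × Fin 2), (Equiv.Perm.sign σ : ℤ) *
        ∏ s, B s ![v (σ (s, 0)), v (σ (s, 1))]}

/-- Let the `E i` be CM fields such that the Galois modules of the antisymmetric functions on their
complex embeddings are irreducible and pairwise not isomorphic, and let `A i` be an abelian
variety over `ℚbar` of CM type `(E i, Φ i)`. Then either all quotients of conjugate periods of some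
`A i` are algebraic (that is, all its periods are algebraic multiples of the square root of `π`),
or on all products of powers of the `A i`, all de Rham-Betti classes of all degrees are linear
combinations of products of divisor classes. -/
theorem result (ι : Type) [Fintype ι] (E : ι → Type) [∀ i, Field (E i)] [∀ i, NumberField (E i)]
    [∀ i, IsCMField (E i)] (hE : MultFree E) (Φ : ∀ i, Set (E i →+* ℂ))
    (hΦ : ∀ i, IsCMType (Φ i)) (P : CMPeriods E) :
    (∃ i, ∀ φ : E i →+* ℂ, IsAlgebraic ℚ (P.per ⟨i, φ⟩ / P.per (bar ⟨i, φ⟩))) ∨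
    ∀ (J : Type) [Fintype J] (t : J → ι) (k : ℕ) (f : (∀ a, E (t a)) [⋀^Fin k × Fin 2]→ₗ[ℚ] ℚ),
      IsDeRhamBetti P t k f → f ∈ divisorProducts Φ t k := by
  by_cases hP : ∃ i, ∀ φ : E i →+* ℂ, IsAlgebraic ℚ (P.per ⟨i, φ⟩ / P.per (bar ⟨i, φ⟩))
  · exact Or.inl hP
  · right
    intro J _ t k f hf
    push Not at hP
    obtain ⟨b, hb, hbf⟩ := hf
    exact main hΦ t hE P.per P.ne_zero P.legendre hP k f b hb hbf

end Pool.Agent.Results.MP_77d3f5_ag.MultiplicityFree
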